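import Pool.Agent.N436.DF.Stm3

/-! Project DF (helper436), part `S3_m3`: three real boundary edges. -/

namespace Pool.Agent.N875.DF.M3

open Finset Pool.Agent.N436.DF

section
variable {V : Type} [DecidableEq V] {H : Hub V} {S X : Finset V}

theorem sv_nn (ok : Ok P13 H) {f : V → Bool} {s : V → V → ℤ} (hs : ∀ x z, 0 ≤ s x z) (x z : V) :
    0 ≤ sv H f s x z := by
  have h1 := ok.r01 x z
  have h2 := ok.m_nn x z
  have h3 := hs x z
  have h4 : 0 ≤ min (H.m x z) (s x z) := le_min h2 h3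
  unfold sv
  rcases h1 with h1 | h1 <;> rw [h1] <;> split_ifs <;> omega

theorem sum3 {g : V → ℤ} (hg : ∀ x ∈ X, 0 ≤ g x) {a b c : V} (ha : a ∈ X) (hb : b ∈ X)
    (hc : c ∈ X) (hab : a ≠ b) (hac : a ≠ c) (hbc : b ≠ c) :
    g a + g b + g c ≤ ∑ x ∈ X, g x := by
  have hsub : ({a, b, c} : Finset V) ⊆ X := by
    intro x hx
    simp only [mem_insert, mem_singleton] at hx
    rcases hx with rfl | rfl | rfl <;> assumption
  have h := Finset.sum_le_sum_of_subset_of_nonneg hsub (f := g) (fun x hx _ => hg x hx)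
  rw [Finset.sum_insert (by simp [hab, hac]), Finset.sum_insert (by simp [hbc]),
    Finset.sum_singleton] at h
  linarith

theorem row_nn (ok : Ok P13 H) {f : V → Bool} {s : V → V → ℤ} (hs : ∀ x z, 0 ≤ s x z) (x : V)
    (C : Finset V) : 0 ≤ ∑ z ∈ C, sv H f s x z :=
  Finset.sum_nonneg (fun z _ => sv_nn ok hs x z)

theorem row_ge (ok : Ok P13 H) {f : V → Bool} {s : V → V → ℤ} (hs : ∀ x z, 0 ≤ s x z) (x : V)
    {C : Finset V} {z : V} (hz : z ∈ C) : sv H f s x z ≤ ∑ z ∈ C, sv H f s x z :=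
  Finset.single_le_sum (f := fun z => sv H f s x z) (fun z _ => sv_nn ok hs x z) hz

theorem all_ge (ok : Ok P13 H) {f : V → Bool} {s : V → V → ℤ} (hs : ∀ x z, 0 ≤ s x z) {x : V}
    (hx : x ∈ X) {C : Finset V} {z : V} (hz : z ∈ C) :
    sv H f s x z ≤ ∑ x ∈ X, ∑ z ∈ C, sv H f s x z :=
  (row_ge ok hs x hz).trans
    (Finset.single_le_sum (f := fun x => ∑ z ∈ C, sv H f s x z) (fun x _ => row_nn ok hs x C) hx)

theorem all_nn (ok : Ok P13 H) {f : V → Bool} {s : V → V → ℤ} (hs : ∀ x z, 0 ≤ s x z)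
    (C : Finset V) : 0 ≤ ∑ x ∈ X, ∑ z ∈ C, sv H f s x z :=
  Finset.sum_nonneg (fun x _ => row_nn ok hs x C)

/-- an unserved real edge at a vertex coloured 1 -/
theorem sv2 (ok : Ok P13 H) {f : V → Bool} {x z : V} (hr : H.r x z = 1) (hf : f x = true) :
    2 ≤ sv H f (fun _ _ => 0) x z := by
  have h2 := ok.m_nn x z
  unfold sv
  simp only [hr, hf]
  have h4 : 0 ≤ min (H.m x z) (0 : ℤ) := le_min h2 le_rfl
  norm_num
  omega

/-- a served real edge at a vertex coloured 2 -/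
theorem sv9 (ok : Ok P13 H) {f : V → Bool} {s : V → V → ℤ} {x z : V} (hr : H.r x z = 1)
    (hf : f x = false) (hs : s x z = 1) : 9 ≤ sv H f s x z := by
  have h2 := ok.m_nn x z
  unfold sv
  simp only [hr, hf, hs]
  have h4 : 0 ≤ min (H.m x z) (1 : ℤ) := le_min h2 (by norm_num)
  norm_num
  omega

theorem tri (hb : S3_base) (hT : Top8 H S X) {C : Finset V} (hC : C ⊆ S \ X) (hne : C.Nonempty) :
    9 ≤ hp H (X ∪ C) ∨ (-2 ≤ hp H (X ∪ C) ∧ (3 ≤ hp H (X ∪ C) ∨ X ∪ C = S) ∧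
      ∀ x ∈ X, ∀ z ∈ S \ X, H.r x z = 1 → z ∈ C) := by
  obtain ⟨-, -, -, -, b5⟩ := hb V H hT.mc.ok
  obtain ⟨b5, b6⟩ := b5 S hT.mc
  have hsub : X ∪ C ⊆ S := union_subset hT.sub (hC.trans sdiff_subset)
  have hne' : (X ∪ C).Nonempty := hne.mono subset_union_right
  by_cases h : RB H S (X ∪ C)
  · left
    refine hT.max _ ?_ hsub h
    refine ⟨subset_union_left, fun h' => ?_⟩
    obtain ⟨c, hc⟩ := hne
    exact (mem_sdiff.1 (hC hc)).2 (h' (mem_union_right _ hc))
  · right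
    refine ⟨b5 _ hsub hne', ?_, ?_⟩
    · by_cases hS : X ∪ C = S
      · exact Or.inr hS
      · exact Or.inl (b6 _ hsub hne' hS).2
    · intro x hx z hz hr
      by_contra hcon
      exact h ⟨x, mem_union_left _ hx, z, by
        rw [mem_sdiff] at hz ⊢
        refine ⟨hz.1, fun h' => ?_⟩
        rcases mem_union.1 h' with h' | h'
        · exact hz.2 h'
        · exact hcon h', hr⟩

end

theorem m3 (hb : S3_base) (hs : S3_state) (hk : S3_kill) (hP : S3_killP) (hR : S3_killR) :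
    S3_m3 := by
  intro V _ H S X v₁ v₂ v₃ w₁ w₂ w₃ hT hv₁ hv₂ hv₃ h12 h13 h23 hw₁ hw₂ hw₃ r₁ r₂ r₃
  have ok := hT.mc.ok
  obtain ⟨b1, b2, b3, b4, b5⟩ := hb V H ok
  obtain ⟨b5, b6⟩ := b5 S hT.mc
  have hXS : X ≠ S := by
    intro h
    rw [h, sdiff_self] at hw₁
    simp at hw₁
  have hdw : Disjoint X {w₁} := by
    rw [Finset.disjoint_singleton_right]
    exact (mem_sdiff.1 hw₁).2
  have hr0 : ∀ x z, 0 ≤ H.r x z := fun x z => by
    rcases ok.r01 x z with h | h <;> rw [h] <;> norm_num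
  have hw₁S : X ∪ {w₁} ⊆ S :=
    union_subset hT.sub (singleton_subset_iff.2 (mem_sdiff.1 hw₁).1)
  -- (1)
  have hq : w₂ ≠ w₁ ∨ w₃ ≠ w₁ := by
    by_contra hcon
    push Not at hcon
    obtain ⟨e2, e3⟩ := hcon
    have h1 := b2 X {w₁} hdw
    have h2 : 3 ≤ rr H X {w₁} := by
      unfold rr
      simp only [sum_singleton]
      have h := sum3 (X := X) (g := fun x => H.r x w₁) (fun x _ => hr0 x w₁) hv₁ hv₂ hv₃
        h12 h13 h23
      rw [e2] at r₂
      rw [e3] at r₃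
      simp only [r₁, r₂, r₃] at h
      linarith
    have h3 : 0 ≤ mm H X {w₁} :=
      Finset.sum_nonneg (fun x _ => Finset.sum_nonneg (fun z _ => ok.m_nn x z))
    have h4 := b4 w₁
    have h5 : H.c true w₁ ≤ 1 := ok.c1_le w₁
    have h6 : H.c false w₁ ≤ 3 := ok.c2_le w₁
    have h7 := b5 (X ∪ {w₁}) hw₁S ⟨w₁, by simp⟩
    have h8 := hT.h8
    omega
  -- the set `X ∪ {w₁}` has a real boundary edge
  have hRB1 : RB H S (X ∪ {w₁}) := by
    rcases hq with h | h
    · refine ⟨v₂, mem_union_left _ hv₂, w₂, ?_, r₂⟩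
      rw [mem_sdiff] at hw₂ ⊢
      refine ⟨hw₂.1, ?_⟩
      simp only [mem_union, mem_singleton, not_or]
      exact ⟨hw₂.2, h⟩
    · refine ⟨v₃, mem_union_left _ hv₃, w₃, ?_, r₃⟩
      rw [mem_sdiff] at hw₃ ⊢
      refine ⟨hw₃.1, ?_⟩
      simp only [mem_union, mem_singleton, not_or]
      exact ⟨hw₃.2, h⟩
  have hX1 : 9 ≤ hp H (X ∪ {w₁}) := by
    refine hT.max _ ?_ hw₁S hRB1
    refine ⟨subset_union_left, fun h' => ?_⟩
    exact (mem_sdiff.1 hw₁).2 (h' (mem_union_right _ (mem_singleton_self _)))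
  -- (2)
  let l : Bool → V → ℤ := fun i x => if i = false ∧ (x = v₁ ∨ x = v₂ ∨ x = v₃) then 1 else 0
  have hl0 : ∀ i x, 0 ≤ l i x := by
    intro i x
    simp only [l]
    split_ifs <;> norm_num
  have hcost : ∀ C, C ⊆ X → C.Nonempty → cost l C ≤ hp H C + 2 := by
    intro C hCX hCne
    have hge := b5 C (hCX.trans hT.sub) hCne
    have hc1 : cost l C = ∑ z ∈ C, (if z = v₁ ∨ z = v₂ ∨ z = v₃ then (3 : ℤ) else 0) := by
      unfold cost
      refine Finset.sum_congr rfl (fun z _ => ?_)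
      simp only [l]
      split_ifs <;> simp_all
    have hc2 : cost l C = 3 * ((C.filter (fun z => z = v₁ ∨ z = v₂ ∨ z = v₃)).card : ℤ) := by
      rw [hc1, ← Finset.sum_filter, Finset.sum_const]
      simp [mul_comm]
    have hsub : C.filter (fun z => z = v₁ ∨ z = v₂ ∨ z = v₃) ⊆ {v₁, v₂, v₃} := by
      intro z hz
      rw [mem_filter] at hz
      simpa using hz.2
    have hcard : (C.filter (fun z => z = v₁ ∨ z = v₂ ∨ z = v₃)).card ≤ 3 :=
      (Finset.card_le_card hsub).trans Finset.card_le_three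
    rcases Finset.eq_empty_or_nonempty (C.filter (fun z => z = v₁ ∨ z = v₂ ∨ z = v₃)) with he | he
    · rw [hc2, he]
      simp
      omega
    · obtain ⟨z, hz⟩ := he
      rw [mem_filter] at hz
      have hRB : RB H S C := by
        rcases hz.2 with h | h | h
        · exact ⟨v₁, h ▸ hz.1, w₁, mem_sdiff.2 ⟨(mem_sdiff.1 hw₁).1,
            fun h' => (mem_sdiff.1 hw₁).2 (hCX h')⟩, r₁⟩
        · exact ⟨v₂, h ▸ hz.1, w₂, mem_sdiff.2 ⟨(mem_sdiff.1 hw₂).1,
            fun h' => (mem_sdiff.1 hw₂).2 (hCX h')⟩, r₂⟩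
        · exact ⟨v₃, h ▸ hz.1, w₃, mem_sdiff.2 ⟨(mem_sdiff.1 hw₃).1,
            fun h' => (mem_sdiff.1 hw₃).2 (hCX h')⟩, r₃⟩
      have h8 := hT.rb8 C (hCX.trans hT.sub) hRB
      rw [hc2]
      have : ((C.filter (fun z => z = v₁ ∨ z = v₂ ∨ z = v₃)).card : ℤ) ≤ 3 := by
        exact_mod_cast hcard
      omega
  obtain ⟨f, p, hcol, hload⟩ := hs V H S X l hT.mc hT.sub hXS hl0 hcost
  have hXne : X.Nonempty := ⟨v₁, hv₁⟩
  -- all three ends are coloured 1
  have hft : ∀ v ∈ X, ∀ w ∈ S \ X, H.r v w = 1 → (v = v₁ ∨ v = v₂ ∨ v = v₃) → f v = true := by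
    intro v hv w hw hr hv3
    by_contra hcon
    have hf : f v = false := by simpa using hcon
    let s : V → V → ℤ := fun x z => if x = v ∧ z = w then 1 else 0
    have hs0 : ∀ x z, 0 ≤ s x z := by
      intro x z
      simp only [s]
      split_ifs <;> norm_num
    have hcap : ∀ x ∈ X, load H X f p x + ∑ z ∈ S \ X, s x z ≤ H.c (f x) x := by
      intro x hx
      by_cases hxv : x = v
      · subst hxv
        have h1 := (hload x hx).1
        have h2 : l (f x) x = 1 := by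
          show (if f x = false ∧ (x = v₁ ∨ x = v₂ ∨ x = v₃) then (1 : ℤ) else 0) = 1
          rw [if_pos ⟨hf, hv3⟩]
        have h3 : ∑ z ∈ S \ X, s x z = 1 := by
          simp only [s, true_and]
          rw [Finset.sum_ite_eq']
          rw [if_pos hw]
        rw [h3]
        rw [h2] at h1
        exact h1
      · have h3 : ∑ z ∈ S \ X, s x z = 0 := by
          refine Finset.sum_eq_zero (fun z _ => ?_)
          simp only [s]
          rw [if_neg (fun h => hxv h.1)]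
        rw [h3, add_zero]
        exact hcol.cap x hx
    obtain ⟨C, hC, hCne, hCk⟩ := hk V H S X f p s hT.mc hT.sub hXne hcol hs0 hcap
    rw [hT.h8] at hCk
    rcases tri hb hT hC hCne with h | ⟨h1, h2, h3⟩
    · have := all_nn (X := X) ok hs0 (f := f) C
      omega
    · have hwC := h3 v hv w hw hr
      have h4 := all_ge (X := X) ok hs0 (f := f) hv hwC
      have h5 := sv9 ok hr hf (s := s) (by simp only [s]; simp)
      omega
  have f1 := hft v₁ hv₁ w₁ hw₁ r₁ (Or.inl rfl)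
  have f2 := hft v₂ hv₂ w₂ hw₂ r₂ (Or.inr (Or.inl rfl))
  have f3 := hft v₃ hv₃ w₃ hw₃ r₃ (Or.inr (Or.inr rfl))
  -- the service 0
  have hz0 : ∀ x z : V, (0 : ℤ) ≤ (fun _ _ => (0 : ℤ)) x z := fun _ _ => le_rfl
  have hcap0 : ∀ x ∈ X, load H X f p x + ∑ z ∈ S \ X, (fun _ _ => (0 : ℤ)) x z ≤ H.c (f x) x := by
    intro x hx
    simp only [sum_const_zero, add_zero]
    exact hcol.cap x hx
  have hsum6 : ∀ C : Finset V, w₁ ∈ C → w₂ ∈ C → w₃ ∈ C →
      6 ≤ ∑ x ∈ X, ∑ z ∈ C, sv H f (fun _ _ => 0) x z := by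
    intro C c1 c2 c3
    have h := sum3 (X := X) (g := fun x => ∑ z ∈ C, sv H f (fun _ _ => 0) x z)
      (fun x _ => row_nn ok hz0 x C) hv₁ hv₂ hv₃ h12 h13 h23
    have g1 := (sv2 ok r₁ f1).trans (row_ge ok hz0 v₁ c1)
    have g2 := (sv2 ok r₂ f2).trans (row_ge ok hz0 v₂ c2)
    have g3 := (sv2 ok r₃ f3).trans (row_ge ok hz0 v₃ c3)
    omega
  have hsum2 : ∀ C : Finset V, w₁ ∈ C → 2 ≤ ∑ x ∈ X, ∑ z ∈ C, sv H f (fun _ _ => 0) x z :=
    fun C c1 => (sv2 ok r₁ f1).trans (all_ge ok hz0 hv₁ c1)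
  have hsum0 : ∀ C : Finset V, 0 ≤ ∑ x ∈ X, ∑ z ∈ C, sv H f (fun _ _ => 0) x z :=
    fun C => all_nn ok hz0 C
  -- (3)
  have h3 : ∃ y ∈ S \ X, y ≠ w₁ ∧ (1 ≤ H.m w₁ y ∨ H.r w₁ y = 1) := by
    by_contra hcon
    push Not at hcon
    set B : Finset V := (S \ X).erase w₁ with hB
    have hBm : ∀ y, y ∈ B ↔ y ≠ w₁ ∧ y ∈ S ∧ y ∉ X := by
      intro y
      rw [hB, mem_erase, mem_sdiff]
    have hd1 : Disjoint X B := by
      rw [Finset.disjoint_left]
      intro a ha hab
      exact ((hBm a).1 hab).2.2 ha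
    have hd2 : Disjoint (X ∪ {w₁}) B := by
      rw [Finset.disjoint_left]
      intro a ha hab
      rcases mem_union.1 ha with ha | ha
      · exact ((hBm a).1 hab).2.2 ha
      · exact ((hBm a).1 hab).1 (mem_singleton.1 ha)
    have e1 := b2 X B hd1
    have e2 := b2 (X ∪ {w₁}) B hd2
    have hS : X ∪ {w₁} ∪ B = S := by
      ext a
      simp only [mem_union, mem_singleton, hBm]
      constructor
      · rintro ((h | h) | h)
        · exact hT.sub h
        · rw [h]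
          exact (mem_sdiff.1 hw₁).1
        · exact h.2.1
      · intro h
        by_cases h1 : a ∈ X
        · exact Or.inl (Or.inl h1)
        · by_cases h2 : a = w₁
          · exact Or.inl (Or.inr h2)
          · exact Or.inr ⟨h2, h, h1⟩
    have hrz : ∑ z ∈ B, H.r w₁ z = 0 := by
      refine Finset.sum_eq_zero (fun z hz => ?_)
      have hz' := (hBm z).1 hz
      have := hcon z (mem_sdiff.2 hz'.2) hz'.1
      rcases ok.r01 w₁ z with h | h
      · exact h
      · exact absurd h this.2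
    have hmz : ∑ z ∈ B, H.m w₁ z = 0 := by
      refine Finset.sum_eq_zero (fun z hz => ?_)
      have hz' := (hBm z).1 hz
      have := hcon z (mem_sdiff.2 hz'.2) hz'.1
      have h0 := ok.m_nn w₁ z
      have h1 := this.1
      omega
    have e3 : rr H (X ∪ {w₁}) B = rr H X B := by
      unfold rr
      rw [Finset.sum_union hdw, Finset.sum_singleton, hrz, add_zero]
    have e4 : mm H (X ∪ {w₁}) B = mm H X B := by
      unfold mm
      rw [Finset.sum_union hdw, Finset.sum_singleton, hmz, add_zero]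
    rw [hS, e3, e4] at e2
    have hXB : X ∪ B ⊆ S := by
      rw [← hS]
      exact union_subset_union subset_union_left (subset_refl _)
    have hXBne : X ∪ B ≠ S := by
      intro h
      have : w₁ ∈ X ∪ B := by
        rw [h]
        exact (mem_sdiff.1 hw₁).1
      rcases mem_union.1 this with h' | h'
      · exact (mem_sdiff.1 hw₁).2 h'
      · exact ((hBm _).1 h').1 rfl
    have e5 := (b6 (X ∪ B) hXB (hXne.mono subset_union_left) hXBne).1
    have e6 := hT.h8
    omega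
  -- (4)
  obtain ⟨y, hy, hyw, hm | hr⟩ := h3
  · obtain ⟨C, hC, hCne, hCk⟩ := hP V H S X f p (fun _ _ => 0) v₁ w₁ y hT.mc hT.sub hcol hz0 hcap0
      hv₁ hw₁ r₁ f1 rfl hy hyw hm
    rw [hT.h8] at hCk
    have s0 := hsum0 C
    rcases tri hb hT hC hCne with h | ⟨h1, h2, h3⟩
    · by_cases c1 : w₁ ∈ C
      · have s2 := hsum2 C c1
        rw [if_pos c1] at hCk
        split_ifs at hCk <;> omega
      · rw [if_neg c1] at hCk
        omega
    · have c1 := h3 v₁ hv₁ w₁ hw₁ r₁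
      have s6 := hsum6 C c1 (h3 v₂ hv₂ w₂ hw₂ r₂) (h3 v₃ hv₃ w₃ hw₃ r₃)
      rw [if_pos c1] at hCk
      rcases h2 with h2 | h2
      · split_ifs at hCk <;> omega
      · have cy : y ∈ C := by
          have : y ∈ X ∪ C := by
            rw [h2]
            exact (mem_sdiff.1 hy).1
          rcases mem_union.1 this with h' | h'
          · exact absurd h' (mem_sdiff.1 hy).2
          · exact h'
        rw [if_pos cy] at hCk
        omega
  · obtain ⟨C, hC, hCne, hCk⟩ := hR V H S X f p (fun _ _ => 0) v₁ w₁ y hT.mc hT.sub hcol hz0 hcap0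
      hv₁ hw₁ r₁ f1 rfl hy hr
    rw [hT.h8] at hCk
    have s0 := hsum0 C
    by_cases hrb : RB H S (X ∪ C)
    · have hsub : X ∪ C ⊆ S := union_subset hT.sub (hC.trans sdiff_subset)
      have h : 9 ≤ hp H (X ∪ C) := by
        refine hT.max _ ?_ hsub hrb
        refine ⟨subset_union_left, fun h' => ?_⟩
        obtain ⟨c, hc⟩ := hCne
        exact (mem_sdiff.1 (hC hc)).2 (h' (mem_union_right _ hc))
      by_cases c1 : w₁ ∈ C
      · have s2 := hsum2 C c1
        rw [if_pos c1] at hCk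
        split_ifs at hCk <;> omega
      · rw [if_neg c1] at hCk
        split_ifs at hCk <;> omega
    · have hcl : ∀ x ∈ X ∪ C, ∀ z ∈ S, H.r x z = 1 → z ∈ X ∪ C := by
        intro x hx z hz hxz
        by_contra hcon
        exact hrb ⟨x, hx, z, mem_sdiff.2 ⟨hz, hcon⟩, hxz⟩
      have hclC : ∀ x ∈ X ∪ C, ∀ z ∈ S \ X, H.r x z = 1 → z ∈ C := by
        intro x hx z hz hxz
        rcases mem_union.1 (hcl x hx z (mem_sdiff.1 hz).1 hxz) with h' | h'
        · exact absurd h' (mem_sdiff.1 hz).2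
        · exact h'
      have c1 := hclC v₁ (mem_union_left _ hv₁) w₁ hw₁ r₁
      have c2 := hclC v₂ (mem_union_left _ hv₂) w₂ hw₂ r₂
      have c3 := hclC v₃ (mem_union_left _ hv₃) w₃ hw₃ r₃
      have cy := hclC w₁ (mem_union_right _ c1) y hy hr
      have s6 := hsum6 C c1 c2 c3
      rw [if_pos c1, if_pos cy] at hCk
      have h1 := b5 (X ∪ C) (union_subset hT.sub (hC.trans sdiff_subset))
        (hCne.mono subset_union_right)
      omega

end Pool.Agent.N875.DF.M3
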